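import Pool.Agent.E870.P.Final

/-!
# Independence of the Chow–Künneth filtration reduces to morphisms from `h^d(X)` to `h^(d+1)(X)`

For the varieties `X` in any class closed under products which contains the curves, the independence
of the filtration `F^• CH^i(X)` from the Chow–Künneth decomposition (Murre's conjecture (C)) is
equivalent to the vanishing of all morphisms from `h^d(X)` to `h^(d+1)(X)`, `d = dim X`, for one and
the same decomposition. (The starting file `IndependenceIffHalfOfB` shows that the independence is equivalent
to the vanishing of the morphisms from `h^a(X)` to `h^b(X)` for all `a < b` and for all pairs of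
decompositions.)

Proof. The independence implies the vanishing of all morphisms from `h^a(X)` to `h^b(X)`, `a < b`,
by the starting file. Conversely, the vanishing of the morphisms from `h^d(X)` to `h^(d+1)(X)` gives
`CH^i(h^(2i+1)(X)) = 0` for `d = 2i`, and then for all `X` and `i` by multiplication with the class
`1` or with a point of a curve. Let `a` be a class in `CH^i(h^b(X))`, `b > 2i + 1`, and let `z` be a
class of degree zero on a curve `E`. Then `a × z` lies in `CH^(i+1)(h^(b+1)(X × E))`, so it vanishes
by induction on the excess `b - 2i`. This implies `a = 0` (the peeling lemma,
`Pool.Agent.E870.P.peel`, which rests on the principle of Bloch and Srinivas and on a degenerating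
family of curves). So `CH^i(h^b(X)) = 0` for all `b > 2i`, which implies the independence by the
starting file.
-/

open Pool.Agent.H914 Pool.Agent.R903 Pool.Agent.E870.Q

universe u v w

namespace Pool.Agent.Results.MP_10f4af_ag.AdjacentWeights

/-- **The Chow–Künneth filtrations are independent of the decomposition, for all varieties of a
class, if and only if there are no nonzero morphisms from `h^d(X)` to `h^(d+1)(X)`,
`d = dim X`.** -/
theorem result {k : Type u} [Field k] {𝒱 : VarClass k} {C : ChowTheory.{u, v} 𝒱}
    (W : WeilTheory.{u, v, w} C) (hC : IsGeometric C.toChowData) {P : 𝒱.Obj → Prop}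
    (hP : IsClosedClass P) :
    (∀ X, P X → W.MurreC X) ↔ ∀ X, P X → NoHomMid W X :=
  Pool.Agent.E870.P.q_noHom hC hP

end Pool.Agent.Results.MP_10f4af_ag.AdjacentWeights
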